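import Mathlib
import Pool.Agent.H534.NW.GoldE

/-!
# Representations `N = p + m`, for EVERY even number `N`, at all the places of every narrow shape

`p` is a prime and `m = N - p` is an almost prime (a product of at most three primes, if `p` is at least
`N ^ (3 / 4)`); `N` is an arbitrary large even number and the constants do not depend on `N`.  For every shape
`b_1, ..., b_k` (no exceptions) and a positive proportion of the multiples `D = W d`, `d ≤ X`, of a small modulus
`W` which depends on the shape, for all `X` between a power of `log H` and `(H / (W b_i)) ^ (1 / 3)`, the summands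
can be shifted simultaneously: `N = (p + D b_i) + (m - D b_i)` are representations of the same kind, for many
primes `p` of `(H / 3, 4 H / 3]`; the same is true inside every set of representations of positive relative
density, hence also for the pairs of primes if there are as many of them as expected; and for the representations
with summands `p` in strings of consecutive primes with bounded gaps.

The modulus `W = WS σ b H` is the product of the primes `p ≤ (log H) ^ (1 - σ)` such that `p ≤ log log H` or two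
of the numbers `0, b_1, ..., b_k` are congruent modulo `p`; it is always `H ^ o(1)`, and for fixed `b` a bounded
power of `log H`.

Proof.  The relative multidimensional Szemerédi theorem for shapes of polynomial size and narrow differences
(`Pool.Agent.H534.NW`), uniform in systems of linear forms with coefficients up to a power of `H`, and the primes
with almost prime companions of the library, uniform in the even number (a sieve, and a Maynard-Tao theorem).
-/

set_option autoImplicit false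

open Finset Filter

namespace Pool.Agent.Results.MP_61161c_nt.EveryShapeOfRepresentations

open Pool.Agent.H534.NW (WS Shapes ShapesV)

/-- The twin prime constant: the infimum (the limit) of the decreasing products of `1 - 1 / (p - 1) ^ 2`
over the primes `3 ≤ p ≤ z`. -/
noncomputable def C₂ : ℝ := ⨅ z : ℕ, ∏ p ∈ (Finset.Icc 3 z).filter Nat.Prime, (1 - 1 / ((p : ℝ) - 1) ^ 2)

/-- The singular series `2 C₂ ∏_{p ∣ N, p > 2} (p - 1) / (p - 2)`. -/
noncomputable def 𝔖 (N : ℕ) : ℝ :=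
  2 * C₂ * ∏ p ∈ N.primeFactors.filter (fun p => 2 < p), ((p : ℝ) - 1) / ((p : ℝ) - 2)

/-- All prime factors of `n` are larger than `y`. -/
def Rough (y : ℝ) (n : ℕ) : Prop := ∀ q : ℕ, q.Prime → q ∣ n → y < (q : ℝ)

open Classical in
/-- the primes `p` of `(H / 3, 4 H / 3]` for which `N - p` has at most `r` prime factors, all larger than `y` -/
noncomputable def Summands (r : ℕ) (y : ℝ) (N H : ℕ) : Finset ℕ :=
  (Ioc (H / 3) (H / 3 + H)).filter (fun p => p.Prime ∧ (N - p).primeFactorsList.length ≤ r ∧ Rough y (N - p))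

/-- **Every even number, every narrow shape.** Let `k, E ≥ 1` and `κ > 0`; the constants `c > 0`, `0 < σ ≤ 1 / 2`
and `L` do not depend on `N` nor on the sets.  `ShapesV k v c σ L H A` means: for all `X ≥ (log H) ^ L` and ALL
distinct `b_1, ..., b_k ≥ 1` with `b_i W X ^ 3 ≤ H`, where `W = WS σ b H`, at least `c X` of the `d ≤ X` are such
that with `D = W d` at least `c H v ^ (k + 1)` elements `n` of `A` have `n + D b_1, ..., n + D b_k` in `A`.
`Shapes k s c σ L H A` is the same with `H / (log H) ^ (s (k + 1))` in place of `H v ^ (k + 1)`.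
(1) For every even `N ≤ H ^ E`, every `(Y, Y + H]` with `Y + H < N` every set `A` of at least
`κ 𝔖(N) H / (log H) ^ 2` integers `n` of it such that `n` and `N - n` have no prime factor `≤ H ^ η` has the
property `ShapesV k (𝔖(N) / (log H) ^ 2) c σ L H`.
(2) Let `0 < θ ≤ 1` and `20 / (9 θ) < r + 3 / 80` (for instance `r = 3`, `θ = 3 / 4`). For all large even `N` and
all `N ^ θ ≤ H ≤ N / 3` every subset of relative density `≥ κ` of the set of the primes `p` of `(H / 3, 4 H / 3]`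
for which `N - p` has at most `r` prime factors, all larger than `N ^ ζ` (where `ζ > 0` depends on `θ` and `r`),
has this property.
(3) For every `m` there are `η > 0`, `B` and `K` such that for large `x` and all even `2 x < N ≤ x ^ E` there are a
set `P` of at least `m` of the integers `1, ..., K` and a set `S` of integers `n` of `(x / 2, 3 x / 2]` such that
the primes in `(n, n + M]` are the integers `p = n + t`, `t ∈ P`, and all prime factors of `N - p` are larger than
`x ^ η` for each of these primes `p`, for all `n ∈ S`, and every subset of `S` of relative density `≥ κ` has the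
property `Shapes k B c σ L x`; here `K ≤ M ≤ log x / (log log x) ^ 2` is arbitrary. -/
theorem result :
    (∀ (k E : ℕ) (η κ : ℝ), 1 ≤ k → 1 ≤ E → 0 < η → 0 < κ → ∃ c σ : ℝ, 0 < c ∧ 0 < σ ∧ σ ≤ 1 / 2 ∧ ∃ L H₀ : ℕ,
      ∀ (N Y H : ℕ) (A : Finset ℕ), H₀ ≤ H → Even N → Y + H < N → N ≤ H ^ E → A ⊆ Ioc Y (Y + H) →
      (∀ n ∈ A, ∀ p : ℕ, p.Prime → (p : ℝ) ≤ (H : ℝ) ^ η → ¬ p ∣ n ∧ ¬ p ∣ N - n) →
      κ * (𝔖 N * (H / Real.log H ^ 2)) ≤ A.card → ShapesV k (𝔖 N / Real.log H ^ 2) c σ L H A) ∧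
    (∀ (r : ℕ) (θ : ℝ), 0 < θ → θ ≤ 1 → 20 / (9 * θ) < r + 3 / 80 → ∃ ζ : ℝ, 0 < ζ ∧
      ∀ (k : ℕ) (κ : ℝ), 1 ≤ k → 0 < κ → ∃ c σ : ℝ, 0 < c ∧ 0 < σ ∧ σ ≤ 1 / 2 ∧ ∃ L N₀ : ℕ,
      ∀ N : ℕ, N₀ ≤ N → Even N → ∀ H : ℕ, (N : ℝ) ^ θ ≤ H → 3 * H ≤ N →
      ∀ A ⊆ Summands r ((N : ℝ) ^ ζ) N H, κ * ((Summands r ((N : ℝ) ^ ζ) N H).card : ℝ) ≤ A.card →
      ShapesV k (𝔖 N / Real.log H ^ 2) c σ L H A) ∧
    (∀ m : ℕ, ∃ η : ℝ, 0 < η ∧ ∃ B K : ℕ, ∀ (k E : ℕ) (κ : ℝ), 1 ≤ k → 0 < κ →
      ∃ c σ : ℝ, 0 < c ∧ 0 < σ ∧ σ ≤ 1 / 2 ∧ ∃ L x₀ : ℕ, ∀ x : ℕ, x₀ ≤ x → ∀ N M : ℕ, Even N → 2 * x < N →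
      N ≤ x ^ E → K ≤ M → (M : ℝ) ≤ Real.log x / Real.log (Real.log x) ^ 2 →
      ∃ P S : Finset ℕ, P ⊆ Icc 1 K ∧ m ≤ P.card ∧ S ⊆ Ioc (x / 2) (x / 2 + x) ∧
      (∀ n ∈ S, (∀ t : ℕ, 1 ≤ t → t ≤ M → ((n + t).Prime ↔ t ∈ P)) ∧
        ∀ t ∈ P, (n + t).Prime ∧ Rough ((x : ℝ) ^ η) (N - (n + t))) ∧
      ∀ A ⊆ S, κ * (S.card : ℝ) ≤ A.card → Shapes k B c σ L x A) := by
  classical
  have hSG : ∀ n : ℕ, 𝔖 n = Pool.Agent.Q236.GW.SG n := fun _ => rfl
  refine ⟨fun k E η κ hk hE hη hκ => ?_, fun r θ hθ0 hθ1 hr => ?_, fun m => ?_⟩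
  · obtain ⟨c, σm, hc, hσm, hσm2, h⟩ := Pool.Agent.H534.NW.goldAW k E η κ hk hE hη hκ
    obtain ⟨L, H₀, h⟩ := h σm hσm le_rfl
    refine ⟨c, σm, hc, hσm, hσm2, L, H₀, fun N Y H A hH hN hYN hNE hA hAr hAc => ?_⟩
    rw [hSG] at hAc ⊢
    exact h N Y H A hH hN hYN hNE hA hAr hAc
  · obtain ⟨τ, hτ1, hτ2⟩ : ∃ τ : ℝ, 10 / 9 / (r + 3 / 80) < τ ∧ τ < θ / 2 := by
      apply _root_.exists_between
      have h0 : (0 : ℝ) < r + 3 / 80 := by positivity
      rw [div_lt_iff₀ h0]
      rw [div_lt_iff₀ (by positivity)] at hr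
      nlinarith
    have h0 : (0 : ℝ) < r + 3 / 80 := by positivity
    have hτ0 : 0 < τ := lt_trans (by positivity) hτ1
    have hrτ : 10 / 9 < (r + 3 / 80) * τ := by
      rw [div_lt_iff₀ h0] at hτ1
      linarith
    refine ⟨τ / 8, by positivity, fun k κ hk hκ => ?_⟩
    obtain ⟨c, σm, hc, hσm, hσm2, h1⟩ := Pool.Agent.H534.NW.goldWN r θ τ hτ0 hτ2 hθ1 hrτ k κ hk hκ
    obtain ⟨L, N₀, h1⟩ := h1 σm hσm le_rfl
    refine ⟨c, σm, hc, hσm, hσm2, L, N₀, fun N hN hev H hNH hHN A hA hAc => ?_⟩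
    rw [hSG]
    exact h1 N hN hev H hNH hHN A hA hAc
  · obtain ⟨η, hη, B, K, h⟩ := Pool.Agent.H534.NW.goldCW m
    refine ⟨η, hη, B, K, fun k E κ hk hκ => ?_⟩
    obtain ⟨c, σm, hc, hσm, hσm2, h1⟩ := h k E κ hk hκ
    obtain ⟨L, x₀, h1⟩ := h1 σm hσm le_rfl
    exact ⟨c, σm, hc, hσm, hσm2, L, x₀, fun x hx N M hN hxN hNE hKM hM => h1 x hx N M hN hxN hNE hKM hM⟩

end Pool.Agent.Results.MP_61161c_nt.EveryShapeOfRepresentations
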