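import Mathlib
import Pool.Agent.H566.KSj

/-!
Sums of two primes of the same colour at the values of a polynomial: in every finite colouring of the primes, many values
of an admissible polynomial of degree at least two are sums of two distinct odd primes of the same colour, in many ways;
and the obvious local condition, which can be violated already by colourings with two colours, is the only obstruction.
-/

set_option autoImplicit false

namespace Pool.Agent.Results.MP_61161c_nt.MonochromaticPolynomialSums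

open Finset Polynomial

/-- The pairs of odd primes `p < q` of the same colour with `p + q = n`. -/
def Pairs {K : ℕ} (χ : ℕ → Fin K) (n : ℤ) : Set (ℕ × ℕ) :=
  {x | x.1.Prime ∧ x.2.Prime ∧ 2 < x.1 ∧ x.1 < x.2 ∧ χ x.1 = χ x.2 ∧ (x.1 : ℤ) + x.2 = n}

/-- The local condition: for every prime `l` there is an even value `R m` with `R m / 2` prime to `l`. -/
def Local (R : ℤ[X]) : Prop :=
  ∀ l : ℕ, l.Prime → ∃ m : ℕ, 2 ∣ R.eval (m : ℤ) ∧ ¬ (l : ℤ) ∣ R.eval (m : ℤ) / 2

lemma coe_mp {K : ℕ} (χ : ℕ → Fin K) (z : ℤ) : (Pool.Agent.H566.mp χ z.toNat : Set (ℕ × ℕ)) = Pairs χ z := by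
  ext x
  rw [mem_coe, Pool.Agent.H566.mp, mem_filter, HasAntidiagonal.mem_antidiagonal]
  constructor
  · rintro ⟨h1, h2, h3, h4, h5, h6⟩
    exact ⟨h2, h3, h4, h5, h6, by omega⟩
  · rintro ⟨h2, h3, h4, h5, h6, h1⟩
    exact ⟨by omega, h2, h3, h4, h5, h6⟩

lemma local_of (R : ℤ[X]) (h : ∀ χ : ℕ → Fin 2, ∃ m : ℕ, (Pairs χ (R.eval (m : ℤ))).Nonempty) : Local R := by
  intro l hl
  by_contra hcon
  push Not at hcon
  rcases hl.eq_two_or_odd with h2 | hodd
  · obtain ⟨m, ⟨p, q⟩, hp, hq, hp2, hpq, hχ, hsum⟩ := h (fun n => if n % 4 = 1 then 0 else 1)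
    simp only at hp hq hp2 hpq hχ hsum
    have hpo : p % 2 = 1 := hp.eq_two_or_odd.resolve_left (by omega)
    have hqo : q % 2 = 1 := hq.eq_two_or_odd.resolve_left (by omega)
    have heven : (2 : ℤ) ∣ R.eval (m : ℤ) := by rw [← hsum]; omega
    have h4 := hcon m heven
    rw [h2, ← hsum] at h4
    have hχ' : p % 4 = 1 ↔ q % 4 = 1 := by
      by_cases h5 : p % 4 = 1 <;> by_cases h6 : q % 4 = 1 <;> simp [h5, h6] at hχ ⊢
    push_cast at h4
    omega
  · obtain ⟨m, ⟨p, q⟩, hp, hq, hp2, hpq, hχ, hsum⟩ := h (fun n => if 2 * (n % l) < l then 0 else 1)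
    simp only at hp hq hp2 hpq hχ hsum
    have hpo : p % 2 = 1 := hp.eq_two_or_odd.resolve_left (by omega)
    have hqo : q % 2 = 1 := hq.eq_two_or_odd.resolve_left (by omega)
    have heven : (2 : ℤ) ∣ R.eval (m : ℤ) := by rw [← hsum]; omega
    obtain ⟨t, ht⟩ := hcon m heven
    obtain ⟨s, hs⟩ := heven
    have h5 : R.eval (m : ℤ) = l * (2 * t) := by
      have : R.eval (m : ℤ) / 2 = s := by omega
      rw [this] at ht
      rw [hs, ht]
      ring
    have h6 : l ∣ p + q := by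
      have : (l : ℤ) ∣ ((p + q : ℕ) : ℤ) := by
        push_cast
        rw [hsum, h5]
        exact Dvd.intro _ rfl
      exact_mod_cast this
    have h7 : l ∣ p % l + q % l := by
      rw [Nat.dvd_iff_mod_eq_zero, ← Nat.add_mod]
      exact Nat.mod_eq_zero_of_dvd h6
    obtain ⟨u, hu⟩ := h7
    have hpl := Nat.mod_lt p hl.pos
    have hql := Nat.mod_lt q hl.pos
    have hχ' : 2 * (p % l) < l ↔ 2 * (q % l) < l := by
      by_cases h5 : 2 * (p % l) < l <;> by_cases h6 : 2 * (q % l) < l <;> simp [h5, h6] at hχ ⊢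
    have hu2 : u < 2 := by
      by_contra h8
      have : l * 2 ≤ l * u := Nat.mul_le_mul_left _ (by omega)
      omega
    interval_cases u
    · have h8 : p % l = 0 := by omega
      have h9 : q % l = 0 := by omega
      have h10 := (Nat.prime_dvd_prime_iff_eq hl hp).1 (Nat.dvd_of_mod_eq_zero h8)
      have h11 := (Nat.prime_dvd_prime_iff_eq hl hq).1 (Nat.dvd_of_mod_eq_zero h9)
      omega
    · by_cases h8 : 2 * (p % l) < l
      · have h9 := hχ'.1 h8
        omega
      · have h9 : ¬ 2 * (q % l) < l := fun h => h8 (hχ'.2 h)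
        omega

lemma main_many (R : ℤ[X]) (hd : 2 ≤ R.natDegree) (hl : 0 < R.leadingCoeff) (hloc : Local R) (K : ℕ) (hK : 1 ≤ K) :
    ∃ c : ℝ, 0 < c ∧ ∃ M₀ : ℕ, ∀ M : ℕ, M₀ ≤ M → ∀ χ : ℕ → Fin K,
      c * M ≤ {m : ℕ | 1 ≤ m ∧ m ≤ M ∧
        c * (M : ℝ) ^ R.natDegree / Real.log M ^ 2 ≤ (Pairs χ (R.eval (m : ℤ))).ncard}.ncard := by
  classical
  obtain ⟨c, hc, M₀, h⟩ := Pool.Agent.H566.many_m R hd hl hloc K hK
  refine ⟨c, hc, M₀, fun M hM χ => ?_⟩
  have e : {m : ℕ | 1 ≤ m ∧ m ≤ M ∧ c * (M : ℝ) ^ R.natDegree / Real.log M ^ 2 ≤ (Pairs χ (R.eval (m : ℤ))).ncard} =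
      ((Icc 1 M).filter (fun m : ℕ => c * (M : ℝ) ^ R.natDegree / Real.log M ^ 2 ≤
        ((Pool.Agent.H566.mp χ (R.eval (m : ℤ)).toNat).card : ℝ)) : Finset ℕ) := by
    ext m
    rw [mem_coe, mem_filter, mem_Icc, Set.mem_ofPred_eq, ← coe_mp χ, Set.ncard_coe_finset, and_assoc]
  rw [e, Set.ncard_coe_finset]
  exact h M hM χ

lemma exists_of_local (R : ℤ[X]) (hd : 2 ≤ R.natDegree) (hl : 0 < R.leadingCoeff) (hloc : Local R) (K : ℕ)
    (χ : ℕ → Fin K) : ∃ m : ℕ, (Pairs χ (R.eval (m : ℤ))).Nonempty := by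
  have hK : 1 ≤ K := by
    have := (χ 0).pos
    omega
  obtain ⟨c, hc, M₀, h⟩ := main_many R hd hl hloc K hK
  have h1 := h (max M₀ 2) (le_max_left _ _) χ
  set M := max M₀ 2 with hM
  have hM2 : (2 : ℝ) ≤ M := by exact_mod_cast le_max_right M₀ 2
  have hpos : (0 : ℝ) < {m : ℕ | 1 ≤ m ∧ m ≤ M ∧
        c * (M : ℝ) ^ R.natDegree / Real.log M ^ 2 ≤ (Pairs χ (R.eval (m : ℤ))).ncard}.ncard :=
    lt_of_lt_of_le (by positivity) h1
  have hne : {m : ℕ | 1 ≤ m ∧ m ≤ M ∧
        c * (M : ℝ) ^ R.natDegree / Real.log M ^ 2 ≤ (Pairs χ (R.eval (m : ℤ))).ncard}.Nonempty :=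
    Set.nonempty_of_ncard_ne_zero (by exact_mod_cast hpos.ne')
  obtain ⟨m, -, -, hm⟩ := hne
  refine ⟨m, Set.nonempty_of_ncard_ne_zero ?_⟩
  have hlog : 0 < Real.log M := Real.log_pos (by linarith)
  have : (0 : ℝ) < (Pairs χ (R.eval (m : ℤ))).ncard := lt_of_lt_of_le (by positivity) hm
  exact_mod_cast this.ne'

/-- Let `R` be an integer polynomial of degree `d ≥ 2` with positive leading coefficient. The following are equivalent: in
every colouring of the odd primes with finitely many colours some value of `R` is a sum of two distinct odd primes of the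
same colour; the same for colourings with two colours; the local condition. If the local condition holds and `K ≥ 1`, then
for some `c > 0` and all large `M`, in every colouring with `K` colours at least `c M` of the values `R m` with `m ≤ M`
have at least `c M ^ d / (log M) ^ 2` representations as a sum of two distinct odd primes of the same colour. -/
theorem result (R : ℤ[X]) (hd : 2 ≤ R.natDegree) (hl : 0 < R.leadingCoeff) :
    ((∀ (K : ℕ) (χ : ℕ → Fin K), ∃ m : ℕ, (Pairs χ (R.eval (m : ℤ))).Nonempty) ↔ Local R) ∧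
    ((∀ χ : ℕ → Fin 2, ∃ m : ℕ, (Pairs χ (R.eval (m : ℤ))).Nonempty) ↔ Local R) ∧
    (Local R → ∀ K : ℕ, 1 ≤ K → ∃ c : ℝ, 0 < c ∧ ∃ M₀ : ℕ, ∀ M : ℕ, M₀ ≤ M → ∀ χ : ℕ → Fin K,
      c * M ≤ {m : ℕ | 1 ≤ m ∧ m ≤ M ∧
        c * (M : ℝ) ^ R.natDegree / Real.log M ^ 2 ≤ (Pairs χ (R.eval (m : ℤ))).ncard}.ncard) := by
  refine ⟨⟨fun h => local_of R (fun χ => h 2 χ), fun h K χ => exists_of_local R hd hl h K χ⟩,
    ⟨fun h => local_of R h, fun h χ => exists_of_local R hd hl h 2 χ⟩, fun h K hK => main_many R hd hl h K hK⟩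

end Pool.Agent.Results.MP_61161c_nt.MonochromaticPolynomialSums
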