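import Mathlib
import Pool.Agent.H617.WR.N

set_option autoImplicit false

/-!
# Integers `M = p + m`: the parity of the number of the prime factors of `m`, for almost all `M` in windows of length `(log N) ^ θ`, `θ > 1 / 2`

Let `λ(m) = (-1) ^ Ω(m)` be the Liouville function and let `b` be any weight on the primes, `|b p| ≤ 1`, for example the
indicator function of a set `A` of primes. For the integers `M` of a window of length `H ≥ (log N) ^ θ`, with the
exception of at most `ε H` of them, the sums of `b p * log p * λ (M - p)` over the primes `Y ≤ p < M` are smaller than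
the trivial bound, the sum of the `|b p| log p` over the primes `p < M`, by the factor `(1 - θ) / θ < 1`, up to `ε N`,
for all `Y` at the same time. So in the representations `M = p + m`, `p ∈ A`, of such an `M` both parities of `Ω(m)`
occur for a positive proportion (at least `(1 - (1 - θ) / θ) / 2`) of the primes `p ∈ A`, if `A` has a positive density
among the primes below `M`. As the exceptional set is arbitrarily thin, this holds for almost all even `M`, and for
almost all `M` of a residue class to a fixed modulus.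

The block estimates (mean squares over the multiples of the primes of a dyadic block) and the averaged two point theorem
(Matomäki-Radziwiłł-Tao) are those of the library files `E8helper16/SL`, `TH823/MRS` and `Helper82K9/EL`. New are the use
of the identity of Ramaré for the primes between `(log N) ^ (1 - θ)` and `(log N) ^ θ` and the second moment of the
number of the `M` of an arbitrary set for which `M - p` has no prime divisor in this range.
-/

namespace Pool.Agent.Results.MP_61161c_nt.ParityAlmostAllSumsH617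
open Finset
open Pool.Agent.H617.WR
open Pool.Agent.H617.WQ (ttl ttl_nonneg)

/-- **Theorem.** Let `1 / 2 < θ < 1` and `ε > 0`. There is an `N₀` such that for all `N ≥ N₀`, all windows
`M₀ < M ≤ M₀ + H` with `M₀ + H ≤ N` and `H ≥ (log N) ^ θ`, and all weights `b` of modulus at most one: for all `M` of
the window with the exception of at most `ε H`, and for all `Y`,
`|∑ Y ≤ p < M, b p * log p * (-1) ^ Ω(M - p)| ≤ (1 - θ) / θ * ∑ p < M, |b p| log p + ε N`,
where `p` runs over the primes. -/
theorem result (θ : ℝ) (hθ : 1 / 2 < θ) (hθ' : θ < 1) (ε : ℝ) (hε : 0 < ε) :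
    ∃ N₀ : ℕ, ∀ N H M₀ : ℕ, N₀ ≤ N → Real.log N ^ θ ≤ H → M₀ + H ≤ N → ∀ b : ℕ → ℂ, (∀ p, ‖b p‖ ≤ 1) →
    ∃ E : Finset ℕ, (E.card : ℝ) ≤ ε * H ∧ ∀ M : ℕ, M₀ < M → M ≤ M₀ + H → M ∉ E → ∀ Y : ℕ,
      ‖∑ p ∈ (Ico Y M).filter Nat.Prime, b p * (Real.log p : ℂ) * (-1 : ℂ) ^ (ArithmeticFunction.cardFactors (M - p))‖ ≤
      (1 - θ) / θ * ∑ p ∈ (range M).filter Nat.Prime, ‖b p‖ * Real.log p + ε * N := by
  classical
  obtain ⟨N₁, h1⟩ := goldr θ hθ hθ' (ε ^ 2) (by positivity)
  refine ⟨N₁ + 1, fun N H M₀ hN hH hM b hb => ?_⟩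
  have hN0 : (0 : ℝ) < N := by exact_mod_cast (by omega : 0 < N)
  obtain ⟨ρ, hρ⟩ : ∃ ρ, ρ = (1 - θ) / θ := ⟨_, rfl⟩
  have hρ0 : 0 ≤ ρ := by rw [hρ]; exact div_nonneg (by linarith) (by linarith)
  have hX : ∀ h : ℕ, ∃ Y : ℕ, Y ≤ N ∧ ((∃ Z ≤ N, ρ * ttl b (M₀ + h) + ε * N < ‖sgY b Z (M₀ + h)‖) →
      ρ * ttl b (M₀ + h) + ε * N < ‖sgY b Y (M₀ + h)‖) := by
    intro h
    by_cases q : ∃ Z ≤ N, ρ * ttl b (M₀ + h) + ε * N < ‖sgY b Z (M₀ + h)‖
    · obtain ⟨Z, hZ, hZ'⟩ := q
      exact ⟨Z, hZ, fun _ => hZ'⟩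
    · exact ⟨0, Nat.zero_le _, fun q' => absurd q' q⟩
  choose Y hY1 hY2 using hX
  obtain ⟨S, hS⟩ : ∃ S, S = (Icc 1 H).filter (fun h => ∃ Z ≤ N, ρ * ttl b (M₀ + h) + ε * N < ‖sgY b Z (M₀ + h)‖) := ⟨_, rfl⟩
  have hSS : S ⊆ Icc 1 H := by rw [hS]; exact filter_subset _ _
  have key := h1 N (by omega) b hb H hH M₀ hM S hSS Y hY1
  rw [← hρ] at key
  refine ⟨S.image (fun h => M₀ + h), ?_, ?_⟩
  · have g1 : ((S.image (fun h => M₀ + h)).card : ℝ) ≤ S.card := by exact_mod_cast card_image_le
    refine g1.trans ?_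
    apply bad_card (N := N) (by omega) hε (u := fun h => ‖sgY b (Y h) (M₀ + h)‖) (v := fun h => ρ * ttl b (M₀ + h))
    · intro h hh
      rw [hS, mem_filter] at hh
      exact (hY2 h hh.2).le
    · refine key.trans (le_of_eq ?_)
      ring
  · intro M hM1 hM2 hE Z
    have e1 : M₀ + (M - M₀) = M := by omega
    have e2 : ∑ p ∈ (range M).filter Nat.Prime, ‖b p‖ * Real.log p = ttl b M := rfl
    have e3 : ∑ p ∈ (Ico Z M).filter Nat.Prime, b p * (Real.log p : ℂ) * (-1 : ℂ) ^ (ArithmeticFunction.cardFactors (M - p)) = sgY b Z M := rfl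
    rw [e2, e3, ← hρ]
    by_cases hZ : Z ≤ N
    · by_contra q
      push Not at q
      apply hE
      rw [mem_image]
      refine ⟨M - M₀, ?_, e1⟩
      rw [hS, mem_filter, mem_Icc]
      refine ⟨⟨by omega, by omega⟩, Z, hZ, ?_⟩
      rw [e1]
      exact q
    · have e4 : sgY b Z M = 0 := by
        unfold sgY
        rw [Ico_eq_empty (by omega), filter_empty, sum_empty]
      rw [e4, norm_zero]
      have := ttl_nonneg b M
      positivity

end Pool.Agent.Results.MP_61161c_nt.ParityAlmostAllSumsH617
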