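import Pool.Agent.H563.TG.Fin

/-!
# Sums of two distinct odd primes, one of them in a thin set of primes

Let `k 0 ≤ k 1 ≤ k 2 ≤ ...` be natural numbers, `k j ≤ 2 ^ (j / 2)`. There is a set `Q` of odd primes with at most `k j`
elements in `(2 ^ j, 2 ^ (j + 1)]` for every `j`, such that all but `C X (exp (- c K) + 1 / (log X) ^ A)` of the even
numbers `N` in `(X, 2 X]` have more than `c K` representations `N = q + p`, `q` in `Q`, `p ≠ q` prime; `K = k (⌊log X / (2 log 2)⌋)`.
The constants `c` and `C` are absolute, and `A` is arbitrary. For example `k j = h`, a constant, gives a set with at most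
`h log x / log 2` elements up to `x` for which all but a proportion `O (exp (- c h))` of the even numbers are sums, and `k j → ∞`
as slowly as one likes gives almost all even numbers. The order `log x` is the smallest possible: a set of primes (or of
integers) with `O (log x)` elements always misses a positive proportion of the even numbers.
-/

set_option autoImplicit false

namespace Pool.Agent.Results.MP_61161c_nt.ThinSetOfPrimes

open Finset

/-- the number of the representations `N = q + p` with `q` in `Q` and `p` prime, `p ≠ q` -/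
noncomputable def reps (Q : Set ℕ) (N : ℕ) : ℕ := {q | q ∈ Q ∧ ∃ p : ℕ, p.Prime ∧ p ≠ q ∧ q + p = N}.ncard

open Classical in
/-- the even numbers in `(X, 2 X]` with at most `y` representations -/
noncomputable def missed (Q : Set ℕ) (y : ℝ) (X : ℕ) : Finset ℕ :=
  (Ioc X (2 * X)).filter (fun N => 2 ∣ N ∧ (reps Q N : ℝ) ≤ y)

theorem result : ∃ c : ℝ, 0 < c ∧ ∃ C : ℝ, 0 < C ∧ ∃ X₀ : ℕ → ℕ, ∀ k : ℕ → ℕ, Monotone k → (∀ j, k j ≤ 2 ^ (j / 2)) →
    ∃ Q : Set ℕ, (∀ q ∈ Q, q.Prime ∧ q ≠ 2) ∧ (∀ j : ℕ, {q | q ∈ Q ∧ 2 ^ j < q ∧ q ≤ 2 ^ (j + 1)}.ncard ≤ k j) ∧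
      ∀ A X : ℕ, X₀ A ≤ X → ((missed Q (c * k (Nat.log 2 X / 2)) X).card : ℝ) ≤
        C * X * (Real.exp (-c * k (Nat.log 2 X / 2)) + 1 / Real.log X ^ A) := by
  classical
  obtain ⟨c, hc, C, hC, X₀, h⟩ := Pool.Agent.H563.TG.thin
  refine ⟨c, hc, C, hC, X₀, ?_⟩
  intro k hk hk2
  obtain ⟨Q, h1, h2, h3⟩ := h k hk hk2
  refine ⟨Q, h1, h2, ?_⟩
  intro A X hX
  refine le_trans ?_ (h3 A X hX)
  have hsub : missed Q (c * k (Nat.log 2 X / 2)) X ⊆
      (Ioc X (2 * X)).filter (fun N => 2 ∣ N ∧ (Pool.Agent.H563.TG.reps Q N : ℝ) ≤ c * k (Nat.log 2 X / 2)) := by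
    intro N hN
    unfold missed at hN
    rw [mem_filter] at hN ⊢
    refine ⟨hN.1, hN.2.1, le_trans ?_ hN.2.2⟩
    have h4 : Pool.Agent.H563.TG.reps Q N ≤ reps Q N := by
      unfold Pool.Agent.H563.TG.reps reps
      apply Set.ncard_le_ncard
      · rintro q ⟨hq1, hq2, hq3, hq4⟩
        exact ⟨hq1, N - q, hq3, fun e => hq4 e.symm, by omega⟩
      · apply (Set.finite_lt_nat (N + 1)).subset
        rintro q ⟨_, p, _, _, h5⟩
        show q < N + 1
        omega
    exact_mod_cast h4
  exact_mod_cast card_le_card hsub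

end Pool.Agent.Results.MP_61161c_nt.ThinSetOfPrimes
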